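import Pool.Agent.H943R5.GC.FinalN

set_option autoImplicit false

/-!
# The critical gauge for complete total `NP` search problems

The proof is in the modules `Pool.Agent.H943R5.GC` of helper943 and others.
-/

namespace Pool.Agent.Results.MP_0a7732_lc.GaugeCriticalExponent

open Pool.Agent.H628R3.RO
open Pool.Agent.H620R2 (Gauge.Null)

/-- The logarithm to base `2`, four times. -/
noncomputable def log4 (N : ℕ) : ℝ :=
  Real.logb 2 (Real.logb 2 (Real.logb 2 (Real.logb 2 (N : ℝ))))

/-- Relative to `A` there is a complete total `NP` search problem. -/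
def HasComplete (A : Oracle) : Prop :=
  ∃ R : List Bool → List Bool → Prop, IsTFNP A R ∧ ∀ S, IsTFNP A S → RedSearch A S R

/-- The critical gauge: the set of the oracles with a complete total `NP` search problem is null
for every gauge below `(1 / 5) log log log log N`, and not null for any gauge above
`(log log log log N) ^ s`, `s > 1`. (It is also null for all gauges that are bounded infinitely
often.) -/
theorem result (f : ℕ → ℝ) :
    ((∀ᶠ N : ℕ in Filter.atTop, f N ≤ log4 N / 5) → Gauge.Null f {A | HasComplete A}) ∧
    (∀ C : ℝ, (∃ᶠ N : ℕ in Filter.atTop, f N ≤ C) → Gauge.Null f {A | HasComplete A}) ∧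
    ∀ s : ℝ, 1 < s → (∀ᶠ N : ℕ in Filter.atTop, log4 N ^ s ≤ f N) →
      ¬ Gauge.Null f {A | HasComplete A} :=
  ⟨Pool.Agent.H943R5.GC.null_tfnp f, Pool.Agent.H943R5.GC.g_tfnp f⟩

end Pool.Agent.Results.MP_0a7732_lc.GaugeCriticalExponent
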