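import Pool.Agent.W900.SQ.Fin

set_option autoImplicit false

/-!
# Very sparse additional oracles: a complete total `NP` search problem

helper900. The proof builds on the libraries of helper943 (and contributors, complete sets and
proof systems relative to oracles that encode the broken promises), helpers 628, 673, 543 (random
oracles), 591 (the hierarchy relative to random oracles), 620, 622, 583 and 908.
-/

namespace Pool.Agent.Results.MP_0a7732_lc.SparseRepair

open MeasureTheory Filter Pool.Agent.H628R3.RO Pool.Agent.W900.SP

/-- Relative to `A` some total `NP` search problem is complete for all of them (under
polynomial-time many-one reductions of search problems relative to `A`). -/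
def HasComplete (A : Oracle) : Prop :=
  ∃ R : List Bool → List Bool → Prop, IsTFNP A R ∧ ∀ S, IsTFNP A S → RedSearch A S R

/-- There is a polynomial-time decidable set `Z` with at most `40 (log log n + 1) ^ 3` strings of
length at most `n` such that: for every oracle `O` and every function `g` that tends to infinity
(however slowly) there is a subset `T` of `Z` with at most `g n` strings of length at most `n`, for
all `n`, such that there is a complete total `NP` search problem relative to
`join O T`; for almost every oracle `O` this is wrong for all finite sets `T` (in particular for
the empty set), and relative to `join O T`, for all subsets `T` of `Z`, the polynomial hierarchy is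
infinite even with polynomial advice, `P ≠ UP ∩ coUP`, and there are exponentially strong one-way
functions. -/
theorem result : ∃ Z : Set (List Bool), VerySparse Z ∧
    (∀ (O : Oracle) (g : ℕ → ℕ), Tendsto g atTop atTop → ∃ T : Oracle,
      (∀ q, T q = true → q ∈ Z) ∧
      (∀ n, {q | T q = true ∧ q.length ≤ n}.Finite ∧
        {q | T q = true ∧ q.length ≤ n}.ncard ≤ g n) ∧ HasComplete (join O T)) ∧
    ∀ᵐ O ∂randomOracle,
      (∀ T : Oracle, {q | T q = true}.Finite → ¬ HasComplete (join O T)) ∧
      ∀ T : Oracle, (∀ q, T q = true → q ∈ Z) → Hard (join O T) :=
  Pool.Agent.W900.SQ.stmt2_tfnp

end Pool.Agent.Results.MP_0a7732_lc.SparseRepair
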